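import Mathlib

set_option autoImplicit false

namespace Pool.Agent.Results.MP_75a6b7_co.RootLines

open Matrix

/-- `G` has a quantum `c`-colouring in some dimension `d ≥ 1`: orthogonal projections `P v i` on
`ℂ^d` with `∑ i, P v i = 1` for every vertex and `P v i * P w i = 0` for every edge `v w`. -/
def HasQuantumColouring {V : Type} (G : SimpleGraph V) (c : ℕ) : Prop :=
  ∃ d : ℕ, 1 ≤ d ∧ ∃ P : V → Fin c → Matrix (Fin d) (Fin d) ℂ,
    (∀ v i, (P v i).IsHermitian ∧ P v i * P v i = P v i) ∧
    (∀ v, ∑ i, P v i = 1) ∧
    ∀ v w, G.Adj v w → ∀ i, P v i * P w i = 0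

/-- the quantum chromatic number -/
noncomputable def chiQ {V : Type} (G : SimpleGraph V) : ℕ := sInf {c | HasQuantumColouring G c}

/-- bit `x` is the parity of the number of binary digits `1` of `x < 256` -/
def PT : ℕ :=
  47758914269546354982683078068829456704164423862093743397580034411621752859030

/-- even-weight words of length 7, indexed by `0 ≤ v < 63` -/
def X (v : ℕ) : ℕ := (v + 1) ||| ((PT.testBit (v + 1)).toNat <<< 6)

/-- adjacency: even intersection -/
def adjB (a b : ℕ) : Bool := a != b && !(PT.testBit (X a &&& X b))

/-- the graph -/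
def G : SimpleGraph (Fin 63) where
  Adj a b := adjB a b = true
  symm := ⟨by decide +kernel⟩
  loopless := ⟨by decide +kernel⟩

instance : DecidableRel G.Adj := fun a b => by unfold G; infer_instance

/-! ### strong regularity -/

lemma card_fin (n : ℕ) (f : ℕ → Bool) :
    ((Finset.univ : Finset (Fin n)).filter (fun w : Fin n => f (w : ℕ) = true)).card =
      (List.range n).countP f := by
  have h1 : ((Finset.univ : Finset (Fin n)).filter (fun w : Fin n => f (w : ℕ) = true)).card =
      ((Finset.range n).filter (fun w => f w = true)).card := by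
    rw [← Finset.card_map Fin.valEmbedding]
    congr 1
    ext x
    simp only [Finset.mem_map, Finset.mem_filter, Finset.mem_univ, true_and, Finset.mem_range]
    constructor
    · rintro ⟨a, ha, rfl⟩
      exact ⟨a.2, ha⟩
    · rintro ⟨hx, h⟩
      exact ⟨⟨x, hx⟩, h, rfl⟩
  rw [h1, List.countP_eq_length_filter, Finset.card_def, Finset.filter_val, Finset.range_val]
  rw [Multiset.range, Multiset.filter_coe, Multiset.coe_card]
  simp

lemma deg_check : ∀ v : Fin 63, (List.range 63).countP (fun w => adjB v w) = 30 := by
  decide +kernel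

lemma com_check : ∀ v w : Fin 63, v ≠ w →
    (List.range 63).countP (fun x => adjB v x && adjB w x) = if adjB v w then 13 else 15 := by
  decide +kernel

lemma srg : G.IsSRGWith 63 30 13 15 where
  card := by simp
  regular := by
    intro v
    rw [← SimpleGraph.card_neighborFinset_eq_degree, ← deg_check v, ← card_fin]
    refine congrArg Finset.card ?_
    ext w
    simp only [SimpleGraph.mem_neighborFinset, Finset.mem_filter, Finset.mem_univ, true_and]
    exact Iff.rfl
  of_adj := by
    intro v w h
    have h' : adjB v w = true := h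
    have h1 := com_check v w h.ne
    rw [if_pos h', ← card_fin] at h1
    rw [← h1, Fintype.card_subtype]
    refine congrArg Finset.card ?_
    ext x
    simp only [SimpleGraph.mem_commonNeighbors, Finset.mem_filter, Finset.mem_univ, true_and,
      Bool.and_eq_true]
    exact Iff.rfl
  of_not_adj := by
    intro v w hvw h
    have h' : ¬ adjB v w = true := h
    have h1 := com_check v w hvw
    rw [if_neg h', ← card_fin] at h1
    rw [← h1, Fintype.card_subtype]
    refine congrArg Finset.card ?_
    ext x
    simp only [SimpleGraph.mem_commonNeighbors, Finset.mem_filter, Finset.mem_univ, true_and,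
      Bool.and_eq_true]
    exact Iff.rfl

/-! ### independent sets have at most seven vertices -/

/-- search: `srch n l k = true` certifies that the list `l` has no pairwise nonadjacent sublist
of length `k` -/
def srch : ℕ → List ℕ → ℕ → Bool
  | _, _, 0 => false
  | 0, _, _ + 1 => false
  | _ + 1, [], _ + 1 => true
  | n + 1, v :: l, k + 1 =>
    if l.length < k then true
    else srch n l (k + 1) && srch n (l.filter (fun u => !adjB v u)) k

lemma srch_spec : ∀ (n : ℕ) (l : List ℕ) (k : ℕ), srch n l k = true →
    ∀ I : List ℕ, I.Sublist l → I.Pairwise (fun a b => adjB a b = false) → I.length ≠ k := by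
  intro n
  induction n with
  | zero =>
    intro l k h
    cases k <;> simp [srch] at h
  | succ n ih =>
    intro l k h I hI hp
    cases k with
    | zero => simp [srch] at h
    | succ k =>
      cases l with
      | nil =>
        rw [List.sublist_nil.1 hI]
        simp
      | cons v l =>
        rw [srch] at h
        split at h
        · rename_i hlt
          have := hI.length_le
          simp only [List.length_cons] at this
          omega
        · rw [Bool.and_eq_true] at h
          rw [List.sublist_cons_iff] at hI
          rcases hI with hI | ⟨I', rfl, hI'⟩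
          · exact ih _ _ h.1 I hI hp
          · rw [List.pairwise_cons] at hp
            have h1 : I'.Sublist (l.filter (fun u => !adjB v u)) := by
              have h2 := hI'.filter (fun u => !adjB v u)
              have h3 : I'.filter (fun u => !adjB v u) = I' := by
                rw [List.filter_eq_self]
                intro u hu
                rw [hp.1 u hu]; rfl
              rwa [h3] at h2
            have := ih _ _ h.2 I' h1 hp.2
            simp only [List.length_cons]
            omega

lemma srch_63 : srch 63 (List.range 63) 8 = true := by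
  decide +kernel

lemma indep_le (s : Finset (Fin 63)) (hs : ∀ a ∈ s, ∀ b ∈ s, ¬ G.Adj a b) : s.card ≤ 7 := by
  by_contra hcon
  obtain ⟨t, hts, htc⟩ := Finset.exists_subset_card_eq (show 8 ≤ s.card by omega)
  let I : List ℕ := (List.range 63).filter (fun i => ∃ h : i < 63, (⟨i, h⟩ : Fin 63) ∈ t)
  have hI : I.Sublist (List.range 63) := List.filter_sublist
  have hmem : ∀ i, i ∈ I ↔ ∃ h : i < 63, (⟨i, h⟩ : Fin 63) ∈ t := by
    intro i
    simp only [I, List.mem_filter, List.mem_range, decide_eq_true_eq]
    exact ⟨fun h => h.2, fun h => ⟨h.1, h⟩⟩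
  have hp : I.Pairwise (fun a b => adjB a b = false) := by
    apply List.Pairwise.imp_of_mem (R := fun _ _ => True)
    · intro a b ha hb _
      obtain ⟨ha1, ha2⟩ := (hmem a).1 ha
      obtain ⟨hb1, hb2⟩ := (hmem b).1 hb
      have := hs _ (hts ha2) _ (hts hb2)
      have h2 : ¬ adjB a b = true := this
      simpa using h2
    · exact List.pairwise_of_forall (fun _ _ => trivial)
  have hlen : I.length = 8 := by
    have h1 : I.Nodup := (List.nodup_range).sublist hI
    have h2 : I.toFinset = t.map Fin.valEmbedding := by
      ext i
      rw [List.mem_toFinset, hmem, Finset.mem_map]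
      constructor
      · rintro ⟨h, hi⟩
        exact ⟨_, hi, rfl⟩
      · rintro ⟨a, ha, rfl⟩
        exact ⟨a.2, ha⟩
    rw [← List.toFinset_card_of_nodup h1, h2, Finset.card_map, htc]
  exact srch_spec _ _ _ srch_63 I hI hp hlen

lemma not_colorable : ¬ G.Colorable 8 := by
  rintro ⟨c⟩
  obtain ⟨i, hi⟩ := Fintype.exists_lt_card_fiber_of_mul_lt_card (fun v => c v) (n := 7) (by simp)
  have := indep_le (Finset.univ.filter (fun v => c v = i)) (by
    intro a ha b hb hab
    simp only [Finset.mem_filter, Finset.mem_univ, true_and] at ha hb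
    exact c.valid hab (ha.trans hb.symm))
  omega

/-! ### the quantum colouring -/

/-- signs of the multiplication table of the octonions: bit `8 k + j` tells whether
`e_k e_j = - e_{k xor j}` -/
def SM : ℕ := 12887178008817199616

/-- sign -/
def sg (k j : ℕ) : ℤ := if SM.testBit (8 * k + j) then -1 else 1

/-- word of weight 2 or 4 on eight points representing the vertex `v` -/
def Y (v : ℕ) : ℕ := if (List.range 7).countP (fun i => (X v).testBit i) = 6 then 255 - X v else X v

/-- root vector (scaled by two) of the vertex `v` -/
def rt (v i : ℕ) : ℤ :=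
  if (List.range 8).countP (fun i => (Y v).testBit i) = 4 then
    (if (Y v).testBit i then -1 else 1)
  else (if (Y v).testBit i then (if i = Nat.log2 (Y v) then -2 else 2) else 0)

/-- the vector `e_k * r_v` -/
def xv (v k m : ℕ) : ℤ := sg k (k ^^^ m) * rt v (k ^^^ m)

/-- dot product of integer vectors of length 8 -/
def dot (f g : ℕ → ℤ) : ℤ :=
  f 0 * g 0 + f 1 * g 1 + f 2 * g 2 + f 3 * g 3 + f 4 * g 4 + f 5 * g 5 + f 6 * g 6 + f 7 * g 7

lemma norm_check : ∀ v : Fin 63, ∀ k : Fin 8, dot (xv v k) (xv v k) = 8 := by
  decide +kernel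

lemma sum_check : ∀ v : Fin 63, ∀ a b : Fin 8,
    dot (fun k => xv v k a) (fun k => xv v k b) = if a = b then 8 else 0 := by
  decide +kernel

lemma orth_check : ∀ v w : Fin 63, adjB v w = true → ∀ k : Fin 8,
    dot (xv v k) (xv w k) = 0 := by
  decide +kernel

/-- complex version -/
noncomputable def z (v : Fin 63) (k : Fin 8) : Fin 8 → ℂ := fun m => (xv v k m : ℂ)

lemma dot_z (v w : Fin 63) (k : Fin 8) : z v k ⬝ᵥ z w k = (dot (xv v k) (xv w k) : ℤ) := by
  simp only [z, dotProduct, Fin.sum_univ_eight, dot]
  push_cast
  rfl

/-- the projections -/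
noncomputable def P (v : Fin 63) (k : Fin 8) : Matrix (Fin 8) (Fin 8) ℂ :=
  (1 / 8 : ℂ) • vecMulVec (z v k) (z v k)

lemma P_mul (v w : Fin 63) (k : Fin 8) :
    P v k * P w k = ((1 / 8 : ℂ) * (1 / 8) * (dot (xv v k) (xv w k) : ℤ)) •
      vecMulVec (z v k) (z w k) := by
  unfold P
  rw [Matrix.smul_mul, Matrix.mul_smul, smul_smul, Matrix.vecMulVec_mul_vecMulVec, ← dot_z]
  ext a b
  simp only [Matrix.smul_apply, Matrix.vecMulVec_apply, Pi.smul_apply, smul_eq_mul]
  ring

lemma has8 : HasQuantumColouring G 8 := by
  refine ⟨8, by norm_num, P, ?_, ?_, ?_⟩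
  · intro v i
    constructor
    · unfold Matrix.IsHermitian P
      ext a b
      simp [Matrix.vecMulVec_apply, z, mul_comm]
    · rw [P_mul, norm_check]
      unfold P
      norm_num
  · intro v
    ext a b
    rw [Matrix.sum_apply]
    have h := sum_check v a b
    have h2 : (∑ i : Fin 8, P v i a b) =
        (1 / 8 : ℂ) * ((dot (fun k => xv v k a) (fun k => xv v k b) : ℤ) : ℂ) := by
      simp only [P, Matrix.smul_apply, Matrix.vecMulVec_apply, z, dot, Fin.sum_univ_eight,
        smul_eq_mul]
      push_cast
      ring_nf
      rfl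
    rw [h2, h, Matrix.one_apply]
    split_ifs <;> simp
  · intro v w hvw i
    rw [P_mul, orth_check v w hvw i]
    simp

/-- There is a strongly regular graph (with parameters `(63, 30, 13, 15)`) whose quantum chromatic
number is smaller than its chromatic number. -/
theorem result :
    ∃ (V : Type) (_ : Fintype V) (_ : DecidableEq V) (G : SimpleGraph V) (_ : DecidableRel G.Adj)
      (n k l m : ℕ), G.IsSRGWith n k l m ∧ (chiQ G : ℕ∞) < G.chromaticNumber := by
  refine ⟨Fin 63, inferInstance, inferInstance, G, inferInstance, 63, 30, 13, 15, srg, ?_⟩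
  have h1 : chiQ G ≤ 8 := Nat.sInf_le has8
  by_contra hcon
  rw [not_lt] at hcon
  have h2 : G.chromaticNumber ≤ (8 : ℕ) := hcon.trans (by exact_mod_cast h1)
  rw [SimpleGraph.chromaticNumber_le_iff_colorable] at h2
  exact not_colorable h2

end Pool.Agent.Results.MP_75a6b7_co.RootLines
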